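import Pool.Agent.W845.PM.Base

set_option autoImplicit false
open scoped Classical
open Filter Topology MeasureTheory ProbabilityTheory
open scoped ENNReal NNReal BigOperators

namespace Pool.Agent.W672.PM

open Pool.Agent.W845.PM

theorem ind : S_IND := by
  intro V _ G I N hI hN
  have hne : (Finset.univ.filter (fun M : Finset (Sym2 V) => IsM G M)).Nonempty :=
    ⟨∅, Finset.mem_filter.2 ⟨Finset.mem_univ _, fun e he => absurd he (Finset.notMem_empty e),
      fun e he => absurd he (Finset.notMem_empty e)⟩⟩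
  obtain ⟨M, hM, hcard⟩ := Finset.exists_mem_eq_sup _ hne Finset.card
  have hMM : IsM G M := (Finset.mem_filter.1 hM).2
  have hnu : nu G = M.card := hcard
  -- covered vertices
  set C : Finset V := M.biUnion (fun e => e.toFinset) with hC
  have hC2 : C.card = 2 * M.card := by
    rw [hC, Finset.card_biUnion]
    · rw [Finset.sum_congr rfl (fun e he => Sym2.card_toFinset_of_not_isDiag e
        (G.not_isDiag_of_mem_edgeSet (hMM.1 e he)))]
      simp [mul_comm]
    · intro e he f hf hef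
      refine Finset.disjoint_left.2 ?_
      intro v hv hv2
      exact hMM.2 e he f hf hef v (Sym2.mem_toFinset.1 hv) (Sym2.mem_toFinset.1 hv2)
  have hmemC : ∀ v ∈ C, ∃ w, s(v, w) ∈ M := by
    intro v hv
    obtain ⟨e, he, hve⟩ := Finset.mem_biUnion.1 hv
    obtain ⟨w, hw⟩ := Sym2.mem_toFinset.1 hve
    exact ⟨w, hw ▸ he⟩
  have hinj : (I ∩ C).card ≤ N.card := by
    have hex : ∀ v : V, ∃ w, v ∈ C → s(v, w) ∈ M := by
      intro v
      by_cases hv : v ∈ C
      · obtain ⟨w, hw⟩ := hmemC v hv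
        exact ⟨w, fun _ => hw⟩
      · exact ⟨v, fun h => absurd h hv⟩
    choose f hf using hex
    refine Finset.card_le_card_of_injOn f ?_ ?_
    · intro v hv
      have hv : v ∈ I ∩ C := hv
      obtain ⟨h1, h2⟩ := Finset.mem_inter.1 hv
      exact hN v h1 _ (SimpleGraph.mem_edgeSet G |>.1 (hMM.1 _ (hf v h2)))
    · intro v hv w hw hvw
      have hv : v ∈ I ∩ C := hv
      have hw : w ∈ I ∩ C := hw
      have h1 := hf v (Finset.mem_inter.1 hv).2
      have h2 := hf w (Finset.mem_inter.1 hw).2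
      rw [← hvw] at h2
      by_contra hne
      have hne2 : s(v, f v) ≠ s(w, f v) := by
        intro h
        exact hne (Sym2.congr_left.1 h)
      exact hMM.2 _ h1 _ h2 hne2 (f v) (Sym2.mem_mk_right _ _) (Sym2.mem_mk_right _ _)
  have h3 : (I \ C).card ≤ (Finset.univ \ C).card :=
    Finset.card_le_card (Finset.sdiff_subset_sdiff (Finset.subset_univ _) le_rfl)
  have h4 : (I \ C).card + (I ∩ C).card = I.card := Finset.card_sdiff_add_card_inter I C
  have h5 : (Finset.univ \ C).card + C.card = Fintype.card V := by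
    rw [Finset.card_sdiff_add_card_eq_card (Finset.subset_univ _), Finset.card_univ]
  have h6 : I.card + 2 * nu G ≤ N.card + Fintype.card V := by
    rw [hnu, ← hC2]; omega
  unfold dfc
  have : (I.card : ℝ) + 2 * (nu G : ℝ) ≤ N.card + Fintype.card V := by exact_mod_cast h6
  linarith

theorem near_zero {V : Type} {G : SimpleGraph V} {a b : V} (h : near 0 G a b) : a = b := by
  obtain ⟨w, hw⟩ := h
  exact SimpleGraph.Walk.eq_of_length_eq_zero (p := w) (by omega)

theorem j_succ {V : Type} (m : ℕ) (G : SimpleGraph V) (v : V) :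
    J (m + 2) G v ↔ ∀ w, G.Adj v w → ∃ y, (del G v).Adj w y ∧ J m (del (del G v) w) y := by
  constructor
  · intro h w hw
    have := h w hw
    simp only [J, not_forall, not_not] at this
    obtain ⟨y, hy, h2⟩ := this
    exact ⟨y, hy, h2⟩
  · intro h w hw hJ
    obtain ⟨y, hy, h2⟩ := h w hw
    exact hJ y hy h2

theorem claimA (hJloc : S_JLOC) (hNR : S_NEARREC) {V : Type} [Fintype V] (G : SimpleGraph V)
    (m : ℕ) (v w : V) (hv : v ∉ LB (2 * m + 3) G) (hvw : G.Adj v w) (hJ : J (2 * m + 2) G w) :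
    J (2 * m + 2) (del G v) w := by
  have hB : ∀ a b : V, a ≠ b → G.Adj v a → G.Adj v b → ¬ near (2 * m + 3) (del G v) a b := by
    intro a b hab ha hb hn
    exact hv (Finset.mem_filter.2 ⟨Finset.mem_univ _, a, b, hab, ha, hb, hn⟩)
  rw [j_succ] at hJ ⊢
  intro y hy
  have hy1 : G.Adj w y := hy.1
  have hyv : y ≠ v := hy.2.2
  have hwv : w ≠ v := hy.2.1
  obtain ⟨x, hx, hxJ⟩ := hJ y hy1
  have hyx : G.Adj y x := hx.1
  have hyw : y ≠ w := hx.2.1
  have hxw : x ≠ w := hx.2.2
  have hxv : x ≠ v := by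
    rintro rfl
    refine hB w y hyw.symm hvw hyx.symm ?_
    exact ⟨SimpleGraph.Walk.cons hy SimpleGraph.Walk.nil, by simp⟩
  have hyx' : (del (del G v) w).Adj y x := ⟨⟨hyx, hyv, hxv⟩, hyw, hxw⟩
  refine ⟨x, hyx', ?_⟩
  have hnn : ¬ near (2 * m) (del (del G w) y) x v := by
    intro hn
    rcases Nat.eq_zero_or_pos m with rfl | hm
    · exact hxv (near_zero hn)
    · obtain ⟨j, hj⟩ : ∃ j, 2 * m = j + 1 := ⟨2 * m - 1, by omega⟩
      rw [hj] at hn
      obtain ⟨w', hw', hn'⟩ := hNR V j _ v x hxv.symm (near_symm hn)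
      have hvw' : G.Adj v w' := hw'.1.1
      have hw'w : w' ≠ w := hw'.1.2.2
      refine hB w w' hw'w.symm hvw hvw' ?_
      have h1 : near j (del G v) w' x := by
        refine near_mono le_rfl ?_ hn'
        intro a b hab
        exact ⟨hab.1.1.1, hab.2⟩
      have h2 : near j (del G v) x w' := near_symm h1
      have h3 : near (j + 1) (del G v) y w' := near_cons ⟨hyx, hyv, hxv⟩ h2
      have h4 : near (j + 1 + 1) (del G v) w w' := near_cons hy h3
      exact near_mono (by omega) le_rfl h4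
  have h5 := (hJloc V (2 * m) (del (del G w) y) x v hnn).1 hxJ
  have e : del (del (del G w) y) v = del (del (del G v) w) y := by
    rw [del_comm (del G w) y v, del_comm G w v]
  rw [e] at h5
  exact h5

theorem claimB (hJloc : S_JLOC) (hJm : S_JMONO) {V : Type} [Fintype V] (G : SimpleGraph V)
    (m : ℕ) (v w : V) (hv : v ∉ LB (2 * m + 3) G) (hvw : G.Adj v w) (hJ : J (2 * m + 2) G w) :
    ∃ w', w ≠ w' ∧ G.Adj v w' ∧ J (2 * m + 2) (del G v) w' := by
  have hB : ∀ a b : V, a ≠ b → G.Adj v a → G.Adj v b → ¬ near (2 * m + 3) (del G v) a b := by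
    intro a b hab ha hb hn
    exact hv (Finset.mem_filter.2 ⟨Finset.mem_univ _, a, b, hab, ha, hb, hn⟩)
  rw [j_succ] at hJ
  obtain ⟨x, hx, hxJ⟩ := hJ v hvw.symm
  have hvx : G.Adj v x := hx.1
  have hxw : x ≠ w := hx.2.2
  refine ⟨x, hxw.symm, hvx, ?_⟩
  have hn : ¬ near (2 * m) (del G v) x w := fun h =>
    hB x w hxw hvx hvw (near_mono (by omega) le_rfl h)
  rw [del_comm G w v] at hxJ
  have h1 := (hJloc V (2 * m) (del G v) x w hn).2 hxJ
  exact hJm V m _ _ h1

theorem bdet : S_IND → S_JX → S_JLOC → S_JMONO → S_NEARREC → S_BDET := by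
  intro hI hJX hJloc hJm hNR V _ G k
  rcases k with _ | m
  · have h0 : (LI (2 * 0) G).card = 0 := by
      rw [Finset.card_eq_zero]
      unfold LI
      rw [Finset.filter_eq_empty_iff]
      intro v _ h
      exact h
    have h1 := hI V G ∅ ∅ (by simp) (by simp)
    simp only [Finset.card_empty, Nat.cast_zero, sub_self] at h1
    rw [h0]
    have h2 : (0 : ℝ) ≤ (LD (2 * 0) G).card := Nat.cast_nonneg _
    have h3 : (0 : ℝ) ≤ (LB (2 * 0 + 1) G).card := Nat.cast_nonneg _
    push_cast
    linarith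
  · have e1 : 2 * (m + 1) = 2 * m + 2 := by ring
    have e2 : 2 * (m + 1) + 1 = 2 * m + 3 := by ring
    rw [e1, show 2 * m + 2 + 1 = 2 * m + 3 by ring]
    set Bd := LB (2 * m + 3) G with hBd
    have hmain := hI V G (LI (2 * m + 2) G \ Bd) (LD (2 * m + 2) G ∪ Bd) ?_ ?_
    · have c1 : (LI (2 * m + 2) G).card ≤ (LI (2 * m + 2) G \ Bd).card + Bd.card := by
        have := Finset.le_card_sdiff Bd (LI (2 * m + 2) G)
        omega
      have c2 : (LD (2 * m + 2) G ∪ Bd).card ≤ (LD (2 * m + 2) G).card + Bd.card :=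
        Finset.card_union_le _ _
      have c1' : ((LI (2 * m + 2) G).card : ℝ) ≤ (LI (2 * m + 2) G \ Bd).card + Bd.card := by
        exact_mod_cast c1
      have c2' : ((LD (2 * m + 2) G ∪ Bd).card : ℝ) ≤ (LD (2 * m + 2) G).card + Bd.card := by
        exact_mod_cast c2
      linarith
    · intro v hv w hw hvw
      obtain ⟨hv1, hv2⟩ := Finset.mem_sdiff.1 hv
      obtain ⟨hw1, hw2⟩ := Finset.mem_sdiff.1 hw
      have hJv : J (2 * m + 2) G v := (Finset.mem_filter.1 hv1).2
      have hJw : J (2 * m + 2) G w := (Finset.mem_filter.1 hw1).2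
      have hA := claimA hJloc hNR G m v w hv2 hvw hJw
      exact hJX V (m + 1) (m + 1) G v w hJv hvw hA
    · intro v hv w hvw
      obtain ⟨hv1, hv2⟩ := Finset.mem_sdiff.1 hv
      have hJv : J (2 * m + 2) G v := (Finset.mem_filter.1 hv1).2
      by_cases hw : w ∈ Bd
      · exact Finset.mem_union_right _ hw
      · apply Finset.mem_union_left
        have hA := claimA hJloc hNR G m w v hw hvw.symm hJv
        obtain ⟨w', h1, h2, h3⟩ := claimB hJloc hJm G m w v hw hvw.symm hJv
        exact Finset.mem_filter.2 ⟨Finset.mem_univ _, v, w', h1, hvw.symm, h2, hA, h3⟩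

end Pool.Agent.W672.PM
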