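import Pool.Agent.W845.PM.Base

set_option autoImplicit false
open scoped Classical
open Filter Topology MeasureTheory ProbabilityTheory
open scoped ENNReal NNReal BigOperators

namespace Pool.Agent.W672.PM

open Pool.Agent.W845.PM

theorem lip_comap (hlip : S_LIP) {m n : ℕ} (e : Fin m ↪ Fin n) (G G' : SimpleGraph (Fin n))
    (w : Fin n) (h : del G w = del G' w) : |dfc (G.comap e) - dfc (G'.comap e)| ≤ 2 := by
  have hadj : ∀ a b : Fin n, a ≠ w → b ≠ w → (G.Adj a b ↔ G'.Adj a b) := by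
    intro a b ha hb
    have h1 : (del G w).Adj a b ↔ (del G' w).Adj a b := by rw [h]
    simp only [del] at h1
    tauto
  by_cases hw : ∃ x, e x = w
  · obtain ⟨x, rfl⟩ := hw
    apply hlip (Fin m) (G.comap e) (G'.comap e) x
    ext a b
    simp only [del, SimpleGraph.comap_adj]
    constructor
    · rintro ⟨h1, h2, h3⟩
      exact ⟨(hadj _ _ (fun h => h2 (e.injective h)) (fun h => h3 (e.injective h))).1 h1, h2, h3⟩
    · rintro ⟨h1, h2, h3⟩
      exact ⟨(hadj _ _ (fun h => h2 (e.injective h)) (fun h => h3 (e.injective h))).2 h1, h2, h3⟩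
  · have heq : G.comap e = G'.comap e := by
      ext a b
      simp only [SimpleGraph.comap_adj]
      exact hadj _ _ (fun h => hw ⟨a, h⟩) (fun h => hw ⟨b, h⟩)
    rw [heq]; simp

theorem exp_small {b x δ : ℝ} (hb : 0 < b) (hx : 0 < x) (hδ : 0 < δ)
    (h : 2 / (b ^ 2 * δ) ≤ x) : x * Real.exp (-(b * x)) ≤ δ := by
  have h1 := Real.quadratic_le_exp_of_nonneg (x := b * x) (by positivity)
  have h2 : (b * x) ^ 2 / 2 ≤ Real.exp (b * x) := by nlinarith [mul_pos hb hx]
  rw [Real.exp_neg]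
  rw [← div_eq_mul_inv, div_le_iff₀ (Real.exp_pos _)]
  rw [div_le_iff₀ (by positivity)] at h
  calc x = x * 1 := by ring
    _ ≤ x * (x * (b ^ 2 * δ) / 2) := by gcongr; linarith
    _ = δ * ((b * x) ^ 2 / 2) := by ring
    _ ≤ δ * Real.exp (b * x) := by gcongr

theorem fin1 : S_ONE → S_COM → S_MCD → S_LIP → S_UNIF → S_AN4 → S_CUT → S_DET1 → S_FIN1 := by
  intro hone hcom hmcd hlip hunif han4 hcut hdet α c ε δ hα hα2 hc hG hε hε1 hδ
  have h1α : 0 < 1 - α := by linarith
  set c1 : ℝ := (1 + ε) * c with hc1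
  have hc1c : c < c1 := by rw [hc1]; nlinarith
  have hc1p : 0 < c1 := hc.trans hc1c
  have hlt : Gam c1 < Gam c := han4.1 c c1 hc hc1c
  set θ : ℝ := (Gam c - Gam c1) * (1 - α) / 2 with hθ
  have hθ0 : 0 < θ := by
    rw [hθ]
    have : 0 < Gam c - Gam c1 := by linarith
    positivity
  set κ : ℝ := θ / 8 with hκ
  have hκ0 : 0 < κ := by positivity
  have hkey : (Gam c1 - 1) * (1 - α) = α - 2 * θ := by
    have : Gam c * (1 - α) = 1 := by rw [hG]; field_simp
    rw [hθ]; linarith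
  obtain ⟨ρ, N0, hρ, hU⟩ := hunif c1 (θ / 2) hc1p (by positivity)
  set β : ℝ := (1 + ε) * (c / (1 - α)) with hβ
  have hβ0 : 0 < β := by positivity
  have hβ1 : β * (1 - α) = c1 := by rw [hβ, hc1]; field_simp
  set K : ℕ := ⌊1 / κ⌋₊ + 1 with hK
  obtain ⟨N1, hC⟩ := hcut α (κ / 2) β (δ / 2) K hα (by positivity) hβ0 (by positivity)
  set Q : ℝ := Gam c1 - 1 + θ / 2 with hQ
  obtain ⟨N2, hN2⟩ : ∃ N2 : ℕ, (N0 + 1) / (1 - α) + β + β / ρ + |Q| / (θ / 2) + 2 / κ
      + 2 / ((κ ^ 2 / 8) ^ 2 * (δ / 2)) + 1 ≤ (N2 : ℝ) := exists_nat_ge _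
  refine ⟨max N1 N2, ?_⟩
  intro n hn hEven H hdeg
  have hnN1 : N1 ≤ n := le_trans (le_max_left _ _) hn
  have hnN2 : (N2 : ℝ) ≤ n := by exact_mod_cast le_trans (le_max_right _ _) hn
  have p1 : 0 ≤ ((N0 : ℝ) + 1) / (1 - α) := by positivity
  have p2 : 0 ≤ β / ρ := by positivity
  have p3 : 0 ≤ |Q| / (θ / 2) := by positivity
  have p4 : 0 ≤ 2 / κ := by positivity
  have p5 : 0 ≤ 2 / ((κ ^ 2 / 8) ^ 2 * (δ / 2)) := by positivity
  have q1 : ((N0 : ℝ) + 1) / (1 - α) ≤ n := by linarith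
  have q2 : β / ρ ≤ n := by linarith
  have q3 : |Q| / (θ / 2) ≤ n := by linarith
  have q4 : 2 / κ ≤ n := by linarith
  have q5 : 2 / ((κ ^ 2 / 8) ^ 2 * (δ / 2)) ≤ n := by linarith
  have q6 : β ≤ n := by linarith
  have q7 : (1 : ℝ) ≤ n := by linarith
  have hn0 : (0 : ℝ) < n := by linarith
  have hn1 : 1 ≤ n := by exact_mod_cast q7
  have hp0 : 0 ≤ β / n := by positivity
  have hp1 : β / n ≤ 1 := by rw [div_le_one hn0]; exact q6
  set p : ℝ := β / n with hp
  rw [div_le_iff₀ h1α] at q1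
  rw [div_le_iff₀ hρ] at q2
  rw [div_le_iff₀ (by positivity)] at q3
  rw [div_le_iff₀ hκ0] at q4
  -- a and m
  set a : ℕ := ⌈α * n⌉₊ with ha
  have ha1 : α * n ≤ a := Nat.le_ceil _
  have ha2 : (a : ℝ) < α * n + 1 := Nat.ceil_lt_add_one (by positivity)
  have q1' : (N0 : ℝ) + 1 ≤ n - α * n := by
    have : (n : ℝ) * (1 - α) = n - α * n := by ring
    rw [← this]; exact q1
  have hN00 : (0 : ℝ) ≤ N0 := Nat.cast_nonneg _
  have han : a ≤ n := by
    have : (a : ℝ) ≤ n := by linarith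
    exact_mod_cast this
  have hm : ((n - a : ℕ) : ℝ) = (n : ℝ) - a := by push_cast [han]; ring
  have hmN0 : N0 ≤ n - a := by
    have : (N0 : ℝ) ≤ ((n - a : ℕ) : ℝ) := by rw [hm]; linarith
    exact_mod_cast this
  have hm1 : ((n - a : ℕ) : ℝ) ≤ (1 - α) * n := by rw [hm]; linarith
  have hm2 : (1 - α) * n - 1 ≤ ((n - a : ℕ) : ℝ) := by rw [hm]; linarith
  have hm0 : (0 : ℝ) < ((n - a : ℕ) : ℝ) := by
    rw [hm]; linarith
  have hmp : |((n - a : ℕ) : ℝ) * p - c1| ≤ ρ := by
    have e1 : (1 - α) * n * p = c1 := by rw [hp, ← hβ1]; field_simp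
    have e2 : p ≤ ρ := by rw [hp, div_le_iff₀ hn0]; linarith
    have e3 : ((n - a : ℕ) : ℝ) * p ≤ (1 - α) * n * p := mul_le_mul_of_nonneg_right hm1 hp0
    have e4 : ((1 - α) * n - 1) * p ≤ ((n - a : ℕ) : ℝ) * p := mul_le_mul_of_nonneg_right hm2 hp0
    have e5 : ((1 - α) * n - 1) * p = (1 - α) * n * p - p := by ring
    rw [abs_le]
    constructor
    · linarith
    · linarith
  have hE := hU (n - a) p hmN0 hp0 hp1 hmp
  have hE2 : EG (n - a) p dfc ≤ (α - θ) * n := by
    have h1 : EG (n - a) p dfc / ((n - a : ℕ) : ℝ) ≤ Q := by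
      have := (abs_le.1 hE).2
      rw [hQ]; linarith
    rw [div_le_iff₀ hm0] at h1
    have h2 : Q * ((n - a : ℕ) : ℝ) ≤ Q * ((1 - α) * n) + |Q| := by
      have h3 : Q * (((n - a : ℕ) : ℝ) - (1 - α) * n) ≤ |Q| * 1 := by
        calc Q * (((n - a : ℕ) : ℝ) - (1 - α) * n) ≤ |Q * (((n - a : ℕ) : ℝ) - (1 - α) * n)| :=
              le_abs_self _
          _ = |Q| * |((n - a : ℕ) : ℝ) - (1 - α) * n| := abs_mul _ _
          _ ≤ |Q| * 1 := by
              apply mul_le_mul_of_nonneg_left _ (abs_nonneg Q)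
              rw [abs_le]; constructor <;> linarith
      linarith
    have h4 : Q * ((1 - α) * n) = (α - 2 * θ + θ / 2 * (1 - α)) * n := by
      rw [hQ, ← hkey]; ring
    have h5 : (α - 2 * θ + θ / 2 * (1 - α)) * n ≤ (α - 2 * θ + θ / 2) * n := by
      apply mul_le_mul_of_nonneg_right _ hn0.le
      have : θ / 2 * (1 - α) ≤ θ / 2 * 1 := by
        apply mul_le_mul_of_nonneg_left _ (by positivity)
        linarith
      linarith
    have h6 : (α - 2 * θ + θ / 2) * n + n * (θ / 2) = (α - θ) * n := by ring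
    linarith
  -- embeddings
  have hemb : ∀ v : Fin n, ∃ e : Fin (n - a) ↪ Fin n, ∀ x, x ∉ Set.range e → H.Adj v x := by
    intro v
    have hdv : a ≤ (H.neighborFinset v).card := by
      rw [SimpleGraph.card_neighborFinset_eq_degree]
      have h1 : (H.minDegree : ℝ) ≤ H.degree v := by exact_mod_cast H.minDegree_le_degree v
      rw [ha]
      apply Nat.ceil_le.2
      linarith
    obtain ⟨A, hA, hAc⟩ := Finset.exists_subset_card_eq hdv
    have hAc2 : Aᶜ.card = n - a := by
      rw [Finset.card_compl, Fintype.card_fin, hAc]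
    refine ⟨(Aᶜ.orderEmbOfFin hAc2).toEmbedding, ?_⟩
    intro x hx
    have hx2 : x ∈ A := by
      by_contra hxA
      apply hx
      have : x ∈ Set.range (Aᶜ.orderEmbOfFin hAc2) := by
        rw [Finset.range_orderEmbOfFin]
        exact Finset.mem_coe.2 (Finset.mem_compl.2 hxA)
      exact this
    have := hA hx2
    rwa [SimpleGraph.mem_neighborFinset] at this
  choose e he using hemb
  set F : Fin n → SimpleGraph (Fin n) → ℝ := fun v R => dfc (R.comap (e v)) with hF
  have hEF : ∀ v, EG n p (F v) = EG (n - a) p dfc := fun v => hcom (n - a) n (e v) p dfc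
  have hbad : ∀ v, EG n p (fun G => if EG n p (F v) + κ * n ≤ F v G then (1 : ℝ) else 0) ≤
      Real.exp (-(κ ^ 2 / 8 * n)) := by
    intro v
    have h1 := hmcd n p 2 (κ * n) (F v) hn1 hp0 hp1 (by norm_num) (by positivity)
      (fun G G' w h => lip_comap hlip (e v) G G' w h)
    refine h1.trans (le_of_eq ?_)
    congr 2
    field_simp
    ring
  -- k
  set k : ℕ := ⌊κ * n⌋₊ with hk
  have hk1 : (k : ℝ) ≤ κ * n := Nat.floor_le (by positivity)
  have hk2 : κ * n < k + 1 := Nat.lt_floor_add_one _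
  have hKk : n < K * (k + 1) := by
    have h1 : 1 / κ < K := by rw [hK]; push_cast; exact Nat.lt_floor_add_one _
    have h2 : (n : ℝ) < K * (k + 1) := by
      calc (n : ℝ) = 1 / κ * (κ * n) := by field_simp
        _ < K * (k + 1) := by
            apply mul_lt_mul'' h1 hk2 (by positivity) (by positivity)
    exact_mod_cast h2
  have hcutn := hC n H p k hnN1 hdeg le_rfl hp1 (by linarith)
  -- pointwise
  have hpt : ∀ R : SimpleGraph (Fin n), 1 - (if PMa (H ⊔ R) then (1 : ℝ) else 0) ≤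
      (∑ v, (if EG n p (F v) + κ * n ≤ F v R then (1 : ℝ) else 0)) +
        (if Cut K k (H ⊔ R) then (0 : ℝ) else 1) := by
    intro R
    have hs : 0 ≤ ∑ v, (if EG n p (F v) + κ * n ≤ F v R then (1 : ℝ) else 0) :=
      Finset.sum_nonneg fun v _ => by split_ifs <;> norm_num
    by_cases hP : PMa (H ⊔ R)
    · rw [if_pos hP]
      have : (0 : ℝ) ≤ if Cut K k (H ⊔ R) then (0 : ℝ) else 1 := by split_ifs <;> norm_num
      linarith
    · rw [if_neg hP]
      by_cases hCt : Cut K k (H ⊔ R)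
      · rw [if_pos hCt]
        have hex : ∃ v, EG n p (F v) + κ * n ≤ F v R := by
          by_contra hcon
          push Not at hcon
          apply hP
          refine hdet n a k K H R hEven han hKk ?_ hCt
          intro v
          refine ⟨e v, he v, ?_⟩
          have h1 := hcon v
          rw [hEF v] at h1
          have h2 : F v R = dfc (R.comap (e v)) := rfl
          rw [h2] at h1
          have h3 : θ = 8 * κ := by rw [hκ]; ring
          have h4 : 0 ≤ κ * n := by positivity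
          have h5 : (α - θ) * n = α * n - 8 * (κ * n) := by rw [h3]; ring
          linarith
        obtain ⟨v, hv⟩ := hex
        have h1 : (1 : ℝ) ≤ ∑ v, (if EG n p (F v) + κ * n ≤ F v R then (1 : ℝ) else 0) := by
          calc (1 : ℝ) = if EG n p (F v) + κ * n ≤ F v R then (1 : ℝ) else 0 := by rw [if_pos hv]
            _ ≤ _ := Finset.single_le_sum
                (f := fun v => if EG n p (F v) + κ * n ≤ F v R then (1 : ℝ) else 0)
                (fun w _ => by split_ifs <;> norm_num) (Finset.mem_univ v)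
        linarith
      · rw [if_neg hCt]; linarith
  have hfin := EG_mono hp0 hp1 hpt
  rw [EG_add, EG_sum, EG_sub, EG_const hone] at hfin
  have hsum : ∑ v : Fin n, EG n p (fun G => if EG n p (F v) + κ * n ≤ F v G then (1 : ℝ) else 0) ≤
      δ / 2 := by
    calc _ ≤ ∑ _v : Fin n, Real.exp (-(κ ^ 2 / 8 * n)) := Finset.sum_le_sum fun v _ => hbad v
      _ = n * Real.exp (-(κ ^ 2 / 8 * n)) := by
          rw [Finset.sum_const, Finset.card_univ, Fintype.card_fin, nsmul_eq_mul]
      _ ≤ δ / 2 := exp_small (by positivity) hn0 (by positivity) q5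
  linarith

end Pool.Agent.W672.PM
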